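import Pool.Agent.H.MP_e9bccb.J

set_option autoImplicit false
open Set Filter Topology TopologicalSpace
open scoped Cardinal

namespace Pool.Agent.H.MP_32433e
open MP_e9bccb (LS toU ofU lsC)

abbrev C := ℕ → Bool

def L := {l : Set C × C × (C → ℕ) // l.2.1 ∈ l.1 ∧ {y | l.2.2 y ≠ 0}.Countable ∧
  ∀ y, ∀ n < l.2.2 y, l.2.1 n = y n}

inductive G
  | leaf
  | node (l : L) (u : C → ℕ → G)

def G.l : G → L
  | leaf => ⟨(univ, 0, 0), trivial, by simp, by simp⟩
  | node l _ => l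

def G.ch : G → C → Set G
  | leaf => fun _ => ∅
  | node _ u => fun y => range (u y)

abbrev G.M (g : G) := g.l.1.1
abbrev G.x (g : G) := g.l.1.2.1
abbrev G.h (g : G) := g.l.1.2.2

theorem asy (t : G) : ∀ y, ∀ s ∈ t.ch y, ∀ z, t ∉ s.ch z := by
  induction t with
  | leaf => exact fun _ _ => False.elim
  | node l u ih =>
    rintro y _ ⟨n, rfl⟩ z e
    exact ih y n z _ e y ⟨n, rfl⟩

def Pre (g : G) (y : C) : Set G := {d | d ∈ g.ch y ∧ 0 < d.h y ∧ d.h y < g.h y}

def Val (g : G) : Prop := ∀ y z, ∀ d ∈ Pre g y, d ∈ Pre g z → y = z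

def R (a : Set C × C) (d g : G) : Prop := Val g ∧ d.M = a.1 ∧ g.M = a.1 ∧ a.2 ∉ a.1 ∧ d ∈ Pre g a.2

def Ch (a : Set C × C) (S : G → Bool) : Prop := ∀ p q, S p → S q → p ≠ q → R a p q ∨ R a q p

abbrev X := {S : G → Bool // ∃ a, Ch a S}

theorem unq {a b : Set C × C} {p q : G} (h : R a p q ∨ R a q p) (k : R b p q ∨ R b q p) : a = b := by
  obtain h | h := h <;> obtain k | k := k
  exacts [Prod.ext (h.2.1.symm.trans k.2.1) (h.1 _ _ _ h.2.2.2.2 k.2.2.2.2),
    (asy _ _ _ h.2.2.2.2.1 _ k.2.2.2.2.1).elim, (asy _ _ _ h.2.2.2.2.1 _ k.2.2.2.2.1).elim,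
    Prod.ext (h.2.1.symm.trans k.2.1) (h.1 _ _ _ h.2.2.2.2 k.2.2.2.2)]

instance : CompactSpace X := isCompact_iff_compactSpace.1 (IsClosed.isCompact
  (isClosed_of_closure_subset (s := {S | ∃ a, Ch a S}) fun S e => by
    have := mem_closure_iff_nhdsWithin_neBot.1 e
    have v : ∀ p, S p → ∀ᶠ T in 𝓝[{S | ∃ a, Ch a S}] S, T p := fun p l => nhdsWithin_le_nhds
      (((isOpen_discrete {true}).preimage (f := fun T : G → Bool => T p)
        (continuous_apply p)).mem_nhds l)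
    by_cases c : ∃ p q, S p ∧ S q ∧ p ≠ q
    · obtain ⟨p, q, c1, c2, c3⟩ := c
      obtain ⟨T, ⟨⟨a, t⟩, t1⟩, t2⟩ := ((eventually_mem_nhdsWithin.and (v p c1)).and (v q c2)).exists
      refine ⟨a, fun p' q' d1 d2 d3 => ?_⟩
      obtain ⟨T', ⟨⟨⟨b, s⟩, s1⟩, s2⟩, s3, s4⟩ := (((eventually_mem_nhdsWithin.and (v p c1)).and
        (v q c2)).and ((v p' d1).and (v q' d2))).exists
      exact unq (s p q s1 s2 c3) (t p q t1 t2 c3) ▸ s p' q' s3 s4 d3
    · exact ⟨default, fun p q c1 c2 c3 => (c ⟨p, q, c1, c2, c3⟩).elim⟩))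

theorem inj {a : Set C × C} {S : G → Bool} (h : Ch a S) : InjOn (·.h a.2) {g | S g} :=
  fun p c q d e => by_contra fun k => (h p q c d k).elim (fun l => l.2.2.2.2.2.2.ne e)
    fun l => l.2.2.2.2.2.2.ne e.symm

theorem far {a : Set C × C} {S : G → Bool} (h : Ch a S) {B : Set G} (b : B ⊆ {g | S g})
    (e : B.Infinite) (n : ℕ) : ∃ g ∈ B, g.M = a.1 ∧ a.2 ∉ a.1 ∧ g.x n = a.2 n := by
  obtain ⟨_, ⟨g, g1, rfl⟩, g2⟩ := (e.image ((inj h).mono b)).exists_gt n
  obtain ⟨q, q1, q2⟩ := e.nontrivial.exists_ne g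
  exact ⟨g, g1, (h q g (b q1) (b g1) q2).elim (·.2.2.1) (·.2.1), (h q g (b q1) (b g1) q2).elim
    (·.2.2.2.1) (·.2.2.2.1), g.l.2.2.2 _ n g2⟩

def π (g : G) (S : X) : ℝ := if S.1 g then 1 else 0

theorem cπ (g : G) : Continuous (π g) :=
  (continuous_of_discreteTopology (f := fun b : Bool => if b then (1 : ℝ) else 0)).comp
    ((continuous_apply g).comp continuous_subtype_val)

theorem gul {Z : Type} [TopologicalSpace Z] [CompactSpace Z] {i : Z → X} (hi : Continuous i)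
    (h : i.Injective) {W : Set (Set C)} (hW : #W ≤ Cardinal.continuum)
    (k : ∀ z g, (i z).1 g → g.M ∈ W) : LS {f : Z → ℝ | Continuous f} := by
  obtain ⟨e, he⟩ : ∃ e : Set C → C, InjOn e W := by
    obtain ⟨e⟩ : Nonempty (W ↪ C) := Cardinal.lift_mk_le'.1 (by simpa using hW)
    exact ⟨Function.extend Subtype.val e 0, fun a b c d l => congrArg Subtype.val (e.injective
      ((Subtype.val_injective.extend_apply e 0 ⟨a, b⟩).symm.trans (l.trans
        (Subtype.val_injective.extend_apply e 0 ⟨c, d⟩))))⟩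
  refine lsC (A := insert 0 ((π · ∘ i) '' {g | g.M ∈ W})) (ofU (fun o : Option (ℕ × Bool × Bool) =>
    insert 0 (o.elim ∅ fun c => (π · ∘ i) '' {g | g.M ∈ W ∧ (e g.M c.1, g.x c.1) = c.2}))
      fun z hz U l => ?_) ?_ fun x y l => h (Subtype.ext (funext fun g => ?_))
  · obtain rfl | ⟨p, p1, rfl⟩ := hz
    · exact ⟨0, .inl rfl, (le_pure_iff.2 (mem_of_superset (l none (.inl rfl)) (by simp))).trans
        (pure_le_nhds _)⟩
    have l := fun n => l (some (n, e p.M n, p.x n)) (.inr ⟨p, ⟨p1, rfl⟩, rfl⟩)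
    obtain u | ⟨w, rfl⟩ := U.le_cofinite_or_eq_pure
    · refine ⟨0, .inl rfl, tendsto_id'.1 (tendsto_pi_nhds.2 fun z =>
        tendsto_nhds_of_eventually_eq (by_contra fun c => ?_))⟩
      obtain ⟨a, ha⟩ := (i z).2
      choose g g1 g2 g3 g4 using fun n => far ha (B := {g | (i z).1 g ∧ g.M ∈ W ∧
        (e g.M n, g.x n) = (e p.M n, p.x n)}) (fun _ m => m.1) (fun m => U.compl_notMem_iff.2
          (mem_of_superset (inter_mem (Ultrafilter.eventually_not.2 c) (l n)) (by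
            rintro _ ⟨r, rfl | ⟨g, s, rfl⟩⟩
            · exact (r rfl).elim
            · exact ⟨g, ⟨by_contra fun t => r (if_neg t), s⟩, rfl⟩))
              (u (m.image (π · ∘ i)).compl_mem_cofinite)) n
      have : a.1 = p.M := he (g2 0 ▸ (g1 0).2.1) p1 (funext fun n =>
        g2 n ▸ congrArg Prod.fst (g1 n).2.2)
      exact g3 0 (this ▸ mem_of_eq_of_mem (funext fun n => (g4 n).symm.trans
        (congrArg Prod.snd (g1 n).2.2)) p.l.2.1)
    · exact ⟨w, (l 0).imp_right fun ⟨g, m, r⟩ => ⟨g, m.1, r⟩, pure_le_nhds w⟩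
  · rintro _ (rfl | ⟨g, -, rfl⟩)
    exacts [continuous_zero, (cπ g).comp hi]
  · by_cases m : g.M ∈ W
    · have := l _ (.inr ⟨g, m, rfl⟩)
      simp only [Function.comp, π] at this
      grind
    · exact Bool.eq_iff_iff.2 (iff_of_false (mt (k _ _) m) (mt (k _ _) m))

def Lg (N : ℕ → Set (X → ℝ)) (M : Set C) (s : Finset ℕ) (x y : C) : Prop :=
  ∀ n, 0 < n → (∀ i < n, x i = y i) → ∀ v : ℕ → G, ∃ g, Val g ∧ g.M = M ∧ g.h y = n ∧
    range v ⊆ g.ch y ∧ ∀ j ∈ s, π g ∈ N j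

theorem full (N : ℕ → Set (X → ℝ)) {M : Set C} {x : C} (hx : x ∈ M) :
    ∃ g, ∀ s : Finset ℕ, (∀ j ∈ s, π g ∈ N j) → {y | ¬Lg N M s x y}.Countable := by
  classical
  have : Uncountable C := Cardinal.aleph0_lt_mk_iff.1 (by simpa using Cardinal.aleph0_lt_continuum)
  obtain ⟨s, hs⟩ := exists_surjective_nat (Finset ℕ)
  have : ∀ (k : ℕ) (B : Set C), B.Countable → ∃ y ∉ B, ∃ (n : ℕ) (v : ℕ → G), (∀ i < n, x i = y i) ∧
      (¬{y | ¬Lg N M (s k) x y}.Countable → ¬∃ g, Val g ∧ g.M = M ∧ g.h y = n ∧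
        range v ⊆ g.ch y ∧ ∀ j ∈ s k, π g ∈ N j) := fun k B b => by
    by_cases c : {y | ¬Lg N M (s k) x y}.Countable
    · obtain ⟨y, -, e⟩ := not_subset.1 (mt b.mono not_countable_univ)
      exact ⟨y, e, 0, fun _ => .leaf, by simp, fun l => (l c).elim⟩
    · obtain ⟨y, l, e⟩ := not_subset.1 (mt b.mono c)
      simp only [Lg, mem_ofPred_eq, not_forall] at l
      obtain ⟨n, -, m, v, l⟩ := l
      exact ⟨y, e, n, v, m, fun _ => l⟩
  have _ : Nonempty G := ⟨.leaf⟩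
  choose! y y1 n v y2 y3 using this
  let B : ℕ → Set C := Nat.rec ∅ fun k B => insert (y k B) (B ∪ ⋃ j, {z | (v k B j).h z ≠ 0})
  have B1 : ∀ k, (B k).Countable := fun k => by
    induction k with
    | zero => exact countable_empty
    | succ k ih => exact (ih.union (countable_iUnion fun j => (v k _ j).l.2.2.1)).insert _
  have B2 : Monotone B := monotone_nat_of_le_succ fun k z e => .inr (.inl e)
  have i : Function.Injective fun k => y k (B k) := Function.Injective.of_lt_imp_ne fun k l e c =>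
    y1 l _ (B1 l) (B2 e (.inl c.symm))
  have e1 := i.extend_apply (fun k => n k (B k)) 0
  have e2 := i.extend_apply (fun k => v k (B k)) fun _ _ => G.leaf
  have e3 : ∀ z, Function.extend (fun k => y k (B k)) (fun k => n k (B k)) 0 z ≠ 0 →
      ∃ k, y k (B k) = z := fun z e => by_contra fun c => e (Function.extend_apply' _ _ _ c)
  let g := G.node ⟨(M, x, Function.extend (fun k => y k (B k)) (fun k => n k (B k)) 0), hx,
    (countable_range _).mono e3, fun z m e => by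
      obtain ⟨k, rfl⟩ := e3 z (Nat.ne_zero_of_lt e)
      exact y2 k _ (B1 k) m (e.trans_eq (e1 k))⟩
    (Function.extend (fun k => y k (B k)) (fun k => v k (B k)) fun _ _ => .leaf)
  have e2 : ∀ k, g.ch (y k (B k)) = range (v k (B k)) := fun k => congrArg range (e2 k)
  have w : ∀ k l, k < l → ∀ d ∈ Pre g (y k (B k)), d ∉ Pre g (y l (B l)) := fun k l e d a b => by
    obtain ⟨j, rfl⟩ := (e2 k).le a.1
    exact y1 l _ (B1 l) (B2 e (.inr (.inr (mem_iUnion.2 ⟨j, b.2.1.ne'⟩))))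
  refine ⟨g, fun t e => by_contra fun c => ?_⟩
  obtain ⟨k, rfl⟩ := hs t
  refine y3 k _ (B1 k) c ⟨g, fun z z' d a b => ?_, rfl, e1 k, (e2 k).ge, e⟩
  obtain ⟨k, rfl⟩ := e3 z (Nat.ne_zero_of_lt a.2.2)
  obtain ⟨l, rfl⟩ := e3 z' (Nat.ne_zero_of_lt b.2.2)
  obtain m | rfl | m := lt_trichotomy k l
  exacts [(w _ _ m d a b).elim, rfl, (w _ _ m d b a).elim]

theorem brn {N : ℕ → Set (X → ℝ)} {M : Set C} {y : C} (hy : y ∉ M) {p : G} (h : ∀ U :
    Ultrafilter (X → ℝ), (∀ i, π p ∈ N i → N i ∈ U) → ∃ w : X → ℝ, Continuous w ∧ ↑U ≤ 𝓝 w)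
    (k : ∀ s : Finset ℕ, (∀ j ∈ s, π p ∈ N j) → y ∈ closure {x | Lg N M s x y}) : False := by
  classical
  obtain ⟨b, b1, b2⟩ := exists_seq_of_forall_finset_exists (fun g : G => Val g ∧ g.M = M ∧
    0 < g.h y ∧ ∀ j < g.h y, π p ∈ N j → π g ∈ N j) (fun d g => d ∈ g.ch y ∧ d.h y < g.h y)
      fun V _ => by
    obtain ⟨n, n1, n2⟩ := ((eventually_gt_atTop 0).and (V.eventually_all.2 fun d _ =>
      eventually_gt_atTop (d.h y))).exists
    obtain ⟨x, x1, x2⟩ := mem_closure_iff_nhds.1 (k ((Finset.range n).filter (π p ∈ N ·))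
      fun j e => (Finset.mem_filter.1 e).2) _ ((finite_lt_nat n).eventually_all.2 fun i _ =>
        (continuous_apply i).continuousAt.eventually (mem_nhds_discrete.2 (mem_singleton (y i))))
    obtain ⟨v, hv⟩ := (V.countable_toSet.insert .leaf).exists_eq_range (insert_nonempty _ _)
    obtain ⟨g, g1, g2, g3, g4, g5⟩ := x2 n n1 x1 v
    exact ⟨g, ⟨g1, g2, g3 ▸ n1, fun j c d => g5 j (Finset.mem_filter.2 ⟨Finset.mem_range.2
      (g3 ▸ c), d⟩)⟩, fun d e => ⟨g4 (hv.le (.inr e)), g3 ▸ n2 d e⟩⟩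
  have mo : StrictMono fun n => (b n).h y := fun m n e => (b2 m n e).2
  have r : ∀ m n, m < n → R (M, y) (b m) (b n) := fun m n e =>
    ⟨(b1 n).1, (b1 m).2.1, (b1 n).2.1, hy, (b2 m n e).1, (b1 m).2.2.1, mo e⟩
  let S : Set ℕ → X := fun I => ⟨fun g => decide (g ∈ b '' I), (M, y), fun _ _ c d e => by
    obtain ⟨m, -, rfl⟩ := of_decide_eq_true c
    obtain ⟨n, -, rfl⟩ := of_decide_eq_true d
    exact (lt_or_gt_of_ne (mt (congrArg b) e)).imp (r m n) (r n m)⟩
  obtain ⟨w, w1, w2⟩ := h ((hyperfilter ℕ).map fun n => π (b n)) fun j e =>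
    Nat.hyperfilter_le_atTop ((eventually_gt_atTop j).mono fun n c => (b1 n).2.2.2 j
      (c.trans_le mo.le_apply) e)
  have w2 : ∀ T, Tendsto (fun n => π (b n) T) (hyperfilter ℕ) (𝓝 (w T)) := tendsto_pi_nhds.1 w2
  have : Tendsto (fun k => S (Iio k)) atTop (𝓝 (S univ)) := tendsto_subtype_rng.2
    (tendsto_pi_nhds.2 fun g => tendsto_nhds_of_eventually_eq (by
      by_cases c : g ∈ b '' univ
      · obtain ⟨n, -, rfl⟩ := c
        exact (eventually_gt_atTop n).mono fun k e => (decide_eq_true ⟨n, e, rfl⟩).trans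
          (decide_eq_true ⟨n, trivial, rfl⟩).symm
      · exact .of_forall fun k => (decide_eq_false (mt (image_mono (subset_univ _) ·) c)).trans
          (decide_eq_false c).symm))
  refine zero_ne_one ((tendsto_nhds_unique (tendsto_nhds_of_eventually_eq (.of_forall fun k =>
    tendsto_nhds_unique (w2 _) (tendsto_nhds_of_eventually_eq (Nat.hyperfilter_le_atTop
      ((eventually_ge_atTop k).mono fun n e => if_neg fun c => ?_))))) ((w1.tendsto _).comp
        this)).trans (tendsto_nhds_unique (w2 _) (tendsto_nhds_of_eventually_eq (.of_forall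
          fun n => if_pos (decide_eq_true ⟨n, trivial, rfl⟩)))))
  obtain ⟨m, c, d⟩ := of_decide_eq_true c
  exact (mo (c.trans_le e)).ne (congrArg (·.h y) d)

theorem ngu : ¬LS {f : X → ℝ | Continuous f} := fun h => by
  obtain ⟨N, hN⟩ := toU h
  have op : ∀ D : Set C, D.Countable → ∃ d : ℕ → Option C, {x | ∃ n, d n = some x} = D :=
    fun D e => by
      obtain ⟨d, hd⟩ := ((e.image some).insert none).exists_eq_range (insert_nonempty _ _)
      exact ⟨d, Set.ext fun x => (Set.ext_iff.1 hd (some x)).symm.trans (by simp)⟩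
  have : Function.Surjective fun d : (Finset ℕ → ℕ → Option C) × (ℕ → Option C) =>
      {y | ∃ p, ∀ s : Finset ℕ, (∀ j ∈ s, π p ∈ N j) → y ∈ closure {x | ∃ n, d.1 s n = some x}} \
        {x | ∃ n, d.2 n = some x} := fun M => by
    choose D D1 D2 D3 using fun s => (IsSeparable.of_separableSpace
      {x | x ∈ M ∧ {y | ¬Lg N M s x y}.Countable}).exists_countable_dense_subset
    choose d hd using fun s => op _ (D2 s)
    obtain ⟨e, he⟩ := op _ ((countable_iUnion fun s => (D2 s).biUnion fun x l =>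
      (D1 s l).2).mono (sdiff_subset (t := M)))
    refine ⟨(d, e), ?_⟩
    simp only [hd, he]
    refine Subset.antisymm (fun y ⟨⟨p, a⟩, b⟩ => by_contra fun c => brn c (hN _ (cπ p))
      fun s l => closure_mono (fun x m => by_contra fun r => b ⟨mem_iUnion.2 ⟨s, mem_biUnion m r⟩,
        c⟩) (a s l)) fun x a => ⟨(full N a).imp fun p b s l => D3 s ⟨a, b s l⟩, fun b => b.2 a⟩
  have := Cardinal.mk_le_of_surjective this
  simp [Cardinal.add_one_eq Cardinal.aleph0_le_continuum] at this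
  exact this.not_gt (Cardinal.cantor _)

end Pool.Agent.H.MP_32433e
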