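import Pool.Agent.H.MP_32433e.A
import Pool.Agent.H.MP_fbd347.A

set_option autoImplicit false
open Set Filter Topology TopologicalSpace
open scoped Cardinal

namespace Pool.Agent.H.MP_32433e
open MP_e9bccb (LS toU ofU cB cC)

theorem km {Y : Type} {V : Set (Y → ℝ)} : (∃ (ι : Type) (F : Set ((ι → unitInterval) ×
    (ℕ → unitInterval))) (g : (ι → unitInterval) × (ℕ → unitInterval) → Y → ℝ),
      F = closure F ∩ (univ ×ˢ (Prod.snd '' F)) ∧ ContinuousOn g F ∧ g '' F = V) ↔ LS V := by
  classical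
  constructor
  · rintro ⟨ι, F, g, h1, h2, rfl⟩
    refine (ofU (fun o : Option (countableBasis (ℕ → unitInterval)) => o.elim F fun O =>
      Prod.snd ⁻¹' O.1) fun z hz U k => ?_).img h2
    obtain ⟨w, -, hw⟩ := isCompact_univ.ultrafilter_le_nhds' (U.map Prod.fst) univ_mem
    have : ↑U ≤ 𝓝 (w, z.2) := tendsto_id'.1 (Tendsto.prodMk_nhds hw ((isBasis_countableBasis
      _).nhds_hasBasis.tendsto_right_iff.2 fun O m => k (some ⟨O, m.1⟩) m.2))
    exact ⟨_, h1.ge ⟨mem_closure_of_tendsto (f := id) this (k none hz), trivial, z, hz, rfl⟩, this⟩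
  · intro h
    rw [← Subtype.range_coe (s := V)] at h
    obtain ⟨N, -, hN⟩ := (h.pre IsInducing.subtypeVal).clo
    let e : (Y → ℝ) → Y → unitInterval := fun f y => unitInterval.sigmoid (f y)
    have he : IsEmbedding e := .piMap fun _ => isEmbedding_sigmoid
    let c : V → ℕ → unitInterval := fun z n => if z ∈ N n then 1 else 0
    let q := fun a : {a : V × V // ∀ n, a.2 ∈ N n → a.1 ∈ N n} => (e a.1.1, c a.1.2)
    have l := Function.leftInverse_invFun he.injective
    refine ⟨Y, range q, fun p => Function.invFun e p.1, Subset.antisymm (subset_inter subset_closure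
      fun p m => ⟨trivial, p, m, rfl⟩) ?_, he.isInducing.continuousOn_iff.2
        (continuousOn_fst.congr (forall_mem_range.2 fun a => congrArg e (l _))), Subset.antisymm
          (image_subset_iff.2 (range_subset_iff.2 fun a => (l _).symm.subst (motive := (· ∈ V))
            a.1.1.2))
            fun z m => ⟨_, ⟨⟨(⟨z, m⟩, ⟨z, m⟩), fun _ => id⟩, rfl⟩, l _⟩⟩
    rintro ⟨k, m⟩ ⟨p1, -, _, ⟨a, rfl⟩, rfl⟩
    obtain ⟨U, hU⟩ := Ultrafilter.exists_le (h := comap_neBot fun t r =>
      let ⟨_, s, b, e⟩ := mem_closure_iff_nhds.1 p1 t r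
      ⟨b, e ▸ s⟩) (comap q (𝓝 (k, (q a).2)))
    have hU := tendsto_iff_comap.2 hU
    obtain ⟨w, w1, w2⟩ := hN a.1.2 (U.map (·.1.1)) fun n r => Ultrafilter.mem_map.2
      (Ultrafilter.mem_coe.1 (((tendsto_pi_nhds.1 hU.snd_nhds n).eventually_ne (by simp [q, c, r] :
        (q a).2 n ≠ 0)).mono fun b s => b.2 n (by_contra fun t => s (if_neg t))))
    exact ⟨⟨(w, a.1.2), w1⟩, Prod.ext (tendsto_nhds_unique (((he.continuous.comp
      continuous_subtype_val).tendsto w).comp w2) hU.fst_nhds) rfl⟩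

theorem cm {Z : Type} [TopologicalSpace Z] : (∃ 𝒞 𝒩 : Set (Set C(Z, ℝ)), 𝒩.Countable ∧
    ⋃₀ 𝒞 = univ ∧ ∀ K ∈ 𝒞, @IsCompact _ (.induced (fun f : C(Z, ℝ) => (⇑f : Z → ℝ)) inferInstance)
      K ∧ ∀ U, IsOpen[.induced (fun f : C(Z, ℝ) => (⇑f : Z → ℝ)) inferInstance] U → K ⊆ U →
        ∃ N ∈ 𝒩, K ⊆ N ∧ N ⊆ U) ↔ LS {f : Z → ℝ | Continuous f} := by
  let : TopologicalSpace C(Z, ℝ) := .induced (fun f : C(Z, ℝ) => (⇑f : Z → ℝ)) inferInstance
  have i : IsInducing fun f : C(Z, ℝ) => (⇑f : Z → ℝ) := ⟨rfl⟩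
  have r : range (fun f : C(Z, ℝ) => (⇑f : Z → ℝ)) = {f | Continuous f} :=
    Set.ext fun f => ⟨fun ⟨g, e⟩ => e ▸ g.continuous, fun e => ⟨⟨f, e⟩, rfl⟩⟩
  have := i.regularSpace
  constructor
  · rintro ⟨K, F, F1, c, F2⟩
    rw [← r, ← image_univ]
    refine (MP_fbd347.iff.1 ⟨F, F1, fun x _ => ?_⟩).img i.continuous.continuousOn
    obtain ⟨K, k1, k2⟩ := c.ge (mem_univ x)
    exact ⟨K, (F2 K k1).1, k2, subset_univ _, by simpa using (F2 K k1).2⟩
  · intro h
    obtain ⟨N, hN⟩ := (LS.pre i (r ▸ h)).gn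
    choose K k1 k2 k3 using hN
    exact ⟨range K, _, countable_range N, eq_univ_of_forall fun z => ⟨_, ⟨z, rfl⟩, k2 z⟩,
      forall_mem_range.2 fun z => ⟨k1 z, fun U a b => exists_range_iff.2 (k3 z U a b)⟩⟩

theorem one (A : Set X) (h : #A ≤ Cardinal.continuum) : LS {f : closure A → ℝ | Continuous f} := by
  have := isCompact_iff_compactSpace.1 (isClosed_closure (s := A)).isCompact
  refine gul continuous_subtype_val Subtype.val_injective (W := ⋃ S ∈ A, G.M '' {g | S.1 g})
    (cB Cardinal.aleph0_le_continuum h fun S _ => cC Cardinal.aleph0_le_continuum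
      ((countable_of_injective_of_countable_image (inj S.2.choose_spec) (to_countable _)).image _))
        fun z g e => ?_
  obtain ⟨S, a, b⟩ := mem_closure_iff.1 z.2 _ ((isOpen_discrete {true}).preimage (f := fun T : X =>
    T.1 g) ((continuous_apply g).comp continuous_subtype_val)) e
  exact mem_biUnion b ⟨g, a, rfl⟩

theorem two (A : Set (X → ℝ)) (c : ∀ f ∈ A, Continuous f) (h : #A ≤ Cardinal.continuum) :
    LS (closure A ∩ {f | Continuous f}) := by
  classical
  choose! s s1 s2 using fun f (e : Continuous f) => MP_526336.dcnt (h := fun S g => π g S)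
    (continuous_pi cπ) (fun S T e => Subtype.ext (funext fun g => by
      have := congrFun e g
      simp only [π] at this
      grind)) e
  let W := ⋃ f ∈ A, G.M '' s f
  let Z := {S : X | ∀ g, S.1 g → g.M ∈ W}
  have : CompactSpace Z := isCompact_iff_compactSpace.1 (IsClosed.isCompact (by
    simp only [Z, ofPred_forall]
    exact isClosed_iInter fun g => (isClosed_discrete {b | b = true → g.M ∈ W}).preimage
      (f := fun S : X => S.1 g) ((continuous_apply g).comp continuous_subtype_val)))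
  let r : X → Z := fun S => ⟨⟨fun g => S.1 g && decide (g.M ∈ W), S.2.imp fun a e p q b d =>
    e p q (Bool.and_eq_true_iff.1 b).1 (Bool.and_eq_true_iff.1 d).1⟩, fun g e =>
      of_decide_eq_true (Bool.and_eq_true_iff.1 e).2⟩
  have hr : Continuous r := .subtype_mk (.subtype_mk (continuous_pi fun g : G =>
    (continuous_of_discreteTopology (f := fun b => b && decide (g.M ∈ W))).comp
      ((continuous_apply g).comp continuous_subtype_val)) _) _
  convert ((gul (Z := Z) continuous_subtype_val Subtype.val_injective (cB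
    Cardinal.aleph0_le_continuum h fun f e => cC Cardinal.aleph0_le_continuum ((s1 f (c f e)).image
      _)) fun z => z.2).img (f := (· ∘ r)) (by fun_prop)).cls (isClosed_closure (s := A)) using 1
  refine Subset.antisymm (fun f e => ⟨⟨fun z => f z, e.2.comp continuous_subtype_val, funext fun S =>
    (isClosed_eq (continuous_apply (r S).1) (continuous_apply S)).closure_subset_iff.2 (fun g m =>
      s2 g (c g m) _ _ fun p l => ?_) e.1⟩, e.1⟩) fun _ ⟨⟨f, a, e⟩, b⟩ => ⟨b, e ▸ a.comp hr⟩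
  simp [π, r, show p.M ∈ W from mem_biUnion m ⟨p, l, rfl⟩]

end Pool.Agent.H.MP_32433e
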